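import Mathlib

set_option autoImplicit false

namespace Pool.Agent.Results.MP_12a8d1_co.Q1Expansion

open Finset

/-- The finite product `(a; t)_n = ∏_{k < n} (1 - a t^k)` in a commutative ring. -/
def qPoch {R : Type*} [CommRing R] (a t : R) (n : ℕ) : R :=
  ∏ k ∈ Finset.range n, (1 - a * t ^ k)

/-- The ring `ℂ[[u, v]]` of formal power series; `u` is the variable `0`, `v` the variable `1`. -/
abbrev PS := MvPowerSeries (Fin 2) ℂ

/-- The expansion of `p` at `(p₀, q₀)`: `p = p₀ + u`. -/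
noncomputable def pSer (p₀ : ℂ) : PS := MvPowerSeries.C p₀ + MvPowerSeries.X 0

/-- The expansion of `q` at `(p₀, q₀)`: `q = q₀ + v`. -/
noncomputable def qSer (q₀ : ℂ) : PS := MvPowerSeries.C q₀ + MvPowerSeries.X 1

/-- The `n`-th summand `(1/p; 1/q)_n` on the left of (1), expanded at `(p₀, q₀)`. -/
noncomputable def lhs (p₀ q₀ : ℂ) (n : ℕ) : PS :=
  qPoch (pSer p₀)⁻¹ (qSer q₀)⁻¹ n

/-- The `n`-th summand `(p/q)^(n+1) (1/q; 1/q)_n` on the right of (1), expanded at `(p₀, q₀)`. -/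
noncomputable def rhs (p₀ q₀ : ℂ) (n : ℕ) : PS :=
  (pSer p₀ * (qSer q₀)⁻¹) ^ (n + 1) * qPoch (qSer q₀)⁻¹ (qSer q₀)⁻¹ n

/-- The sum `∑_n f n` converges in `ℂ[[u, v]]`: each monomial has a nonzero coefficient in only
finitely many summands. -/
def Converges (f : ℕ → PS) : Prop :=
  ∀ m : Fin 2 →₀ ℕ, {n : ℕ | MvPowerSeries.coeff m (f n) ≠ 0}.Finite

/-- The coefficientwise value of the sum `∑_n f n`. -/
noncomputable def value (f : ℕ → PS) : PS :=
  fun m => ∑ᶠ n : ℕ, MvPowerSeries.coeff m (f n)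

section identity

variable {R : Type*} [CommRing R]

lemma qPoch_succ (a t : R) (n : ℕ) : qPoch a t (n + 1) = qPoch a t n * (1 - a * t ^ n) := by
  unfold qPoch
  rw [Finset.prod_range_succ]

lemma g_step (x X q r : R) (hx : x * X = 1) (hq : q * r = 1) (M : ℕ) :
    ∑ n ∈ range M, (x * r) ^ (n + 1) * qPoch r r n =
      1 + (1 - X) * (∑ n ∈ range M, (x * q * r) ^ (n + 1) * qPoch r r n) - x ^ M * qPoch r r M := by
  induction M with
  | zero => simp [qPoch]
  | succ M ih =>
    rw [Finset.sum_range_succ, Finset.sum_range_succ, ih, qPoch_succ]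
    have h1 : x * q * r = x := by rw [mul_assoc, hq, mul_one]
    rw [h1]
    have h2 : X * x ^ (M + 1) = x ^ M := by
      rw [pow_succ]
      linear_combination x ^ M * hx
    have h3 : r * r ^ M = r ^ (M + 1) := by ring
    rw [h3, mul_pow]
    linear_combination (qPoch r r M) * h2

/-- The exact finite identity behind (1). -/
lemma key (p P q r : R) (hp : p * P = 1) (hq : q * r = 1) (N M : ℕ) :
    ∑ n ∈ range N, qPoch P r n - ∑ n ∈ range M, (p * r) ^ (n + 1) * qPoch r r n =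
      - qPoch P r N * (∑ n ∈ range M, (p * q ^ N * r) ^ (n + 1) * qPoch r r n)
        + qPoch r r M * ∑ l ∈ range N, qPoch P r l * (p * q ^ l) ^ M := by
  induction N with
  | zero => simp [qPoch]
  | succ N ih =>
    rw [Finset.sum_range_succ, Finset.sum_range_succ, qPoch_succ]
    have hx : (p * q ^ N) * (P * r ^ N) = 1 := by
      have : (p * q ^ N) * (P * r ^ N) = (p * P) * (q * r) ^ N := by
        rw [mul_pow]; ring
      rw [this, hp, hq]; simp
    have hg := g_step (p * q ^ N) (P * r ^ N) q r hx hq M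
    have h1 : p * q ^ (N + 1) * r = p * q ^ N * q * r := by ring
    rw [h1]
    linear_combination ih - (qPoch P r N) * hg

end identity

section order

lemma le_order_qPoch (a t : PS) (J : Finset ℕ) (N : ℕ) (hJ : J ⊆ range N)
    (h : ∀ j ∈ J, MvPowerSeries.constantCoeff (1 - a * t ^ j) = 0) :
    (J.card : ℕ∞) ≤ (qPoch a t N).order := by
  unfold qPoch
  refine le_trans ?_ (MvPowerSeries.le_order_prod _ _)
  rw [← Finset.sum_sdiff hJ]
  refine le_trans ?_ (le_add_of_nonneg_left (zero_le))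
  calc (J.card : ℕ∞) = ∑ _j ∈ J, (1 : ℕ∞) := by simp
    _ ≤ _ := by
      apply Finset.sum_le_sum
      intro j hj
      exact MvPowerSeries.one_le_order_iff_constCoeff_eq_zero.mpr (h j hj)

lemma const_pSer (p₀ : ℂ) : MvPowerSeries.constantCoeff (pSer p₀) = p₀ := by
  simp [pSer]

lemma const_qSer (q₀ : ℂ) : MvPowerSeries.constantCoeff (qSer q₀) = q₀ := by
  simp [qSer]

end order

theorem result : ∀ k : ℕ, 1 ≤ k → ∀ p₀ q₀ : ℂ, p₀ ^ k = 1 → q₀ ^ k = 1 →
    Converges (lhs p₀ q₀) → Converges (rhs p₀ q₀) →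
      value (lhs p₀ q₀) = value (rhs p₀ q₀) := by
  intro k hk p₀ q₀ hp hq hL hR
  have hp0 : p₀ ≠ 0 := by
    rintro rfl
    rw [zero_pow (by omega)] at hp
    exact zero_ne_one hp
  have hq0 : q₀ ≠ 0 := by
    rintro rfl
    rw [zero_pow (by omega)] at hq
    exact zero_ne_one hq
  have hpS : pSer p₀ * (pSer p₀)⁻¹ = 1 :=
    MvPowerSeries.mul_inv_cancel _ (by rw [const_pSer]; exact hp0)
  have hqS : qSer q₀ * (qSer q₀)⁻¹ = 1 :=
    MvPowerSeries.mul_inv_cancel _ (by rw [const_qSer]; exact hq0)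
  -- some factor on the left vanishes at the base point
  have hex : ∃ j : ℕ, MvPowerSeries.constantCoeff (1 - (pSer p₀)⁻¹ * (qSer q₀)⁻¹ ^ j) = 0 := by
    by_contra hne
    push Not at hne
    have h0 := hL 0
    have : {n : ℕ | MvPowerSeries.coeff 0 (lhs p₀ q₀ n) ≠ 0} = Set.univ := by
      ext n
      simp only [Set.mem_ofPred_eq, Set.mem_univ, iff_true]
      rw [MvPowerSeries.coeff_zero_eq_constantCoeff_apply]
      unfold lhs qPoch
      rw [map_prod]
      exact Finset.prod_ne_zero_iff.mpr (fun i _ => hne i)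
    rw [this] at h0
    exact Set.infinite_univ h0
  obtain ⟨j₀, hj₀⟩ := hex
  have hconst : ∀ i : ℕ, MvPowerSeries.constantCoeff (1 - (pSer p₀)⁻¹ * (qSer q₀)⁻¹ ^ i) =
      1 - p₀⁻¹ * q₀⁻¹ ^ i := by
    intro i
    simp [map_sub, map_mul, map_pow, MvPowerSeries.constantCoeff_inv, const_pSer, const_qSer]
  have hconst' : ∀ i : ℕ, MvPowerSeries.constantCoeff (1 - (qSer q₀)⁻¹ * (qSer q₀)⁻¹ ^ i) =
      1 - q₀⁻¹ * q₀⁻¹ ^ i := by
    intro i
    simp [map_sub, map_mul, map_pow, MvPowerSeries.constantCoeff_inv, const_qSer]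
  have hqinv : q₀⁻¹ ^ k = 1 := by rw [inv_pow, hq, inv_one]
  have hvan : ∀ i : ℕ, MvPowerSeries.constantCoeff
      (1 - (pSer p₀)⁻¹ * (qSer q₀)⁻¹ ^ (j₀ + k * i)) = 0 := by
    intro i
    rw [hconst] at hj₀ ⊢
    rw [pow_add, pow_mul, hqinv, one_pow, mul_one]
    exact hj₀
  have hvan' : ∀ i : ℕ, MvPowerSeries.constantCoeff
      (1 - (qSer q₀)⁻¹ * (qSer q₀)⁻¹ ^ (k - 1 + k * i)) = 0 := by
    intro i
    rw [hconst', pow_add, pow_mul, hqinv, one_pow, mul_one, ← pow_succ', Nat.sub_add_cancel hk,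
      hqinv, sub_self]
  -- orders tend to infinity
  have hordL : ∀ d N : ℕ, j₀ + k * d ≤ N →
      (d : ℕ∞) ≤ (qPoch (pSer p₀)⁻¹ (qSer q₀)⁻¹ N).order := by
    intro d N hN
    have hinj : Function.Injective (fun i : ℕ => j₀ + k * i) := by
      intro a b hab
      have : k * a = k * b := by simpa using hab
      exact Nat.eq_of_mul_eq_mul_left (by omega) this
    have h := le_order_qPoch (pSer p₀)⁻¹ (qSer q₀)⁻¹ ((range d).image (fun i => j₀ + k * i)) N
      (by
        intro x hx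
        rw [Finset.mem_image] at hx
        obtain ⟨i, hi, rfl⟩ := hx
        rw [Finset.mem_range] at hi ⊢
        have : k * i + k ≤ k * d := by
          calc k * i + k = k * (i + 1) := by ring
            _ ≤ k * d := Nat.mul_le_mul_left _ hi
        omega)
      (by
        intro x hx
        rw [Finset.mem_image] at hx
        obtain ⟨i, _, rfl⟩ := hx
        exact hvan i)
    rwa [Finset.card_image_of_injective _ hinj, Finset.card_range] at h
  have hordR : ∀ d N : ℕ, k * d ≤ N →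
      (d : ℕ∞) ≤ (qPoch (qSer q₀)⁻¹ (qSer q₀)⁻¹ N).order := by
    intro d N hN
    have hinj : Function.Injective (fun i : ℕ => k - 1 + k * i) := by
      intro a b hab
      have : k * a = k * b := by simpa using hab
      exact Nat.eq_of_mul_eq_mul_left (by omega) this
    have h := le_order_qPoch (qSer q₀)⁻¹ (qSer q₀)⁻¹ ((range d).image (fun i => k - 1 + k * i)) N
      (by
        intro x hx
        rw [Finset.mem_image] at hx
        obtain ⟨i, hi, rfl⟩ := hx
        rw [Finset.mem_range] at hi ⊢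
        have : k * i + k ≤ k * d := by
          calc k * i + k = k * (i + 1) := by ring
            _ ≤ k * d := Nat.mul_le_mul_left _ hi
        omega)
      (by
        intro x hx
        rw [Finset.mem_image] at hx
        obtain ⟨i, _, rfl⟩ := hx
        exact hvan' i)
    rwa [Finset.card_image_of_injective _ hinj, Finset.card_range] at h
  -- compare coefficients
  funext m
  unfold value
  -- choose a large truncation point
  obtain ⟨A, hA⟩ := (hL m).bddAbove
  obtain ⟨B, hB⟩ := (hR m).bddAbove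
  let d : ℕ := Finsupp.degree m + 1
  let N : ℕ := A + 1 + (j₀ + k * d)
  let M : ℕ := B + 1 + k * d
  have hsL : ∑ᶠ n : ℕ, MvPowerSeries.coeff m (lhs p₀ q₀ n) =
      ∑ n ∈ range N, MvPowerSeries.coeff m (lhs p₀ q₀ n) := by
    apply finsum_eq_sum_of_support_subset
    intro n hn
    have := hA hn
    simp only [coe_range, Set.mem_Iio, N]
    omega
  have hsR : ∑ᶠ n : ℕ, MvPowerSeries.coeff m (rhs p₀ q₀ n) =
      ∑ n ∈ range M, MvPowerSeries.coeff m (rhs p₀ q₀ n) := by
    apply finsum_eq_sum_of_support_subset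
    intro n hn
    have := hB hn
    simp only [coe_range, Set.mem_Iio, M]
    omega
  rw [hsL, hsR, ← map_sum, ← map_sum, ← sub_eq_zero, ← map_sub]
  have hkey := key (pSer p₀) (pSer p₀)⁻¹ (qSer q₀) (qSer q₀)⁻¹ hpS hqS N M
  have hkey' : ∑ n ∈ range N, lhs p₀ q₀ n - ∑ n ∈ range M, rhs p₀ q₀ n =
      - qPoch (pSer p₀)⁻¹ (qSer q₀)⁻¹ N *
        (∑ n ∈ range M, (pSer p₀ * qSer q₀ ^ N * (qSer q₀)⁻¹) ^ (n + 1) *
          qPoch (qSer q₀)⁻¹ (qSer q₀)⁻¹ n)
        + qPoch (qSer q₀)⁻¹ (qSer q₀)⁻¹ M *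
          ∑ l ∈ range N, qPoch (pSer p₀)⁻¹ (qSer q₀)⁻¹ l * (pSer p₀ * qSer q₀ ^ l) ^ M := hkey
  rw [hkey', map_add]
  have hdlt : ((Finsupp.degree m : ℕ) : ℕ∞) < (d : ℕ∞) := by
    exact_mod_cast Nat.lt_succ_self _
  have e1 : ∀ F : PS, MvPowerSeries.coeff m (- qPoch (pSer p₀)⁻¹ (qSer q₀)⁻¹ N * F) = 0 := by
    intro F
    apply MvPowerSeries.coeff_of_lt_order
    refine lt_of_lt_of_le hdlt (le_trans ?_ MvPowerSeries.le_order_mul)
    rw [MvPowerSeries.order_neg]
    refine le_trans (hordL d N ?_) (le_add_of_nonneg_right (zero_le))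
    simp only [N]; omega
  have e2 : ∀ F : PS, MvPowerSeries.coeff m (qPoch (qSer q₀)⁻¹ (qSer q₀)⁻¹ M * F) = 0 := by
    intro F
    apply MvPowerSeries.coeff_of_lt_order
    refine lt_of_lt_of_le hdlt (le_trans ?_ MvPowerSeries.le_order_mul)
    refine le_trans (hordR d M ?_) (le_add_of_nonneg_right (zero_le))
    simp only [M]; omega
  rw [e1, e2, add_zero]

end Pool.Agent.Results.MP_12a8d1_co.Q1Expansion
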