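import Mathlib

set_option autoImplicit false

namespace Pool.Agent.Results.MP_12a8d1_co.Q2Expansion

open Finset

/-- The finite product `(a; t)_n = ∏_{k < n} (1 - a t^k)` in a commutative ring. -/
def qPoch {R : Type*} [CommRing R] (a t : R) (n : ℕ) : R :=
  ∏ k ∈ Finset.range n, (1 - a * t ^ k)

/-- The ring `ℂ[p][[v]]`: power series in `v = q - q₀` with coefficients polynomials in `p`. -/
abbrev PS := PowerSeries (Polynomial ℂ)

/-- The indeterminate `p`, as a constant power series in `v`. -/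
noncomputable def pSer : PS := PowerSeries.C Polynomial.X

/-- The expansion `q = q₀ + v`. -/
noncomputable def qSer (q₀ : ℂ) : PS := PowerSeries.C (Polynomial.C q₀) + PowerSeries.X

/-- The expansion of `1/q` (the inverse of `qSer q₀` in `ℂ[p][[v]]`). -/
noncomputable def qInv (q₀ : ℂ) : PS := Ring.inverse (qSer q₀)

/-- The `n`-th summand `p q^n (p; q)_n (q; q)_n` on the left of (2), expanded at `q = q₀`. -/
noncomputable def lhs (q₀ : ℂ) (n : ℕ) : PS :=
  pSer * qSer q₀ ^ n * qPoch pSer (qSer q₀) n * qPoch (qSer q₀) (qSer q₀) n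

/-- The `n`-th summand `(p/q)^(n+1) (1/q; 1/q)_n` on the right of (2), expanded at `q = q₀`. -/
noncomputable def rhs (q₀ : ℂ) (n : ℕ) : PS :=
  (pSer * qInv q₀) ^ (n + 1) * qPoch (qInv q₀) (qInv q₀) n

/-- The sum `∑_n f n` converges in `ℂ[p][[v]]`: each power of `v` has a nonzero coefficient in only
finitely many summands. -/
def Converges (f : ℕ → PS) : Prop :=
  ∀ m : ℕ, {n : ℕ | PowerSeries.coeff m (f n) ≠ 0}.Finite

/-- The coefficientwise value of the sum `∑_n f n`. -/
noncomputable def value (f : ℕ → PS) : PS :=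
  PowerSeries.mk fun m => ∑ᶠ n : ℕ, PowerSeries.coeff m (f n)

section identity

variable {R : Type*} [CommRing R]

lemma qPoch_succ (a t : R) (n : ℕ) : qPoch a t (n + 1) = qPoch a t n * (1 - a * t ^ n) := by
  unfold qPoch
  rw [Finset.prod_range_succ]

/-- The coefficient of `p ^ i` in `(p; q)_n`. -/
noncomputable def a (q : R) (n i : ℕ) : R :=
  (qPoch (Polynomial.X : Polynomial R) (Polynomial.C q) n).coeff i

lemma a_zero_right (q : R) (n : ℕ) : a q n 0 = 1 := by
  induction n with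
  | zero => simp [a, qPoch]
  | succ n ih =>
    unfold a at ih ⊢
    rw [qPoch_succ, Polynomial.mul_coeff_zero, ih]
    simp

lemma a_zero_left (q : R) (i : ℕ) : a q 0 (i + 1) = 0 := by
  simp [a, qPoch, Polynomial.coeff_one]

lemma a_succ (q : R) (n i : ℕ) : a q (n + 1) (i + 1) = a q n (i + 1) - q ^ n * a q n i := by
  unfold a
  rw [qPoch_succ, mul_sub, mul_one, Polynomial.coeff_sub]
  congr 1
  rw [← Polynomial.C_pow, ← mul_assoc, Polynomial.coeff_mul_C, Polynomial.coeff_mul_X]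
  ring

lemma a_eq_zero (q : R) (n : ℕ) : ∀ i, n < i → a q n i = 0 := by
  induction n with
  | zero =>
    intro i hi
    obtain ⟨j, rfl⟩ : ∃ j, i = j + 1 := ⟨i - 1, by omega⟩
    exact a_zero_left q j
  | succ n ih =>
    intro i hi
    obtain ⟨j, rfl⟩ : ∃ j, i = j + 1 := ⟨i - 1, by omega⟩
    rw [a_succ, ih _ (by omega), ih _ (by omega)]
    ring

lemma a_second (q : R) (n : ℕ) : ∀ i, (q ^ (i + 1) - 1) * a q n (i + 1) =
    (q ^ i - q ^ n) * a q n i := by
  induction n with
  | zero =>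
    intro i
    rcases i with _ | i
    · simp [a_zero_left]
    · simp [a_zero_left]
  | succ n ih =>
    intro i
    rcases i with _ | i
    · rw [a_succ, a_zero_right, a_zero_right]
      have h := ih 0
      rw [a_zero_right] at h
      linear_combination h
    · rw [a_succ q n (i + 1), a_succ q n i]
      have h1 := ih (i + 1)
      have h2 := ih i
      linear_combination h1 - q ^ (n + 1) * h2

/-- Telescoping identity. -/
lemma tele (q r : R) (hq : q * r = 1) (i N : ℕ) :
    q ^ (i + 1) * ∑ n ∈ range N, q ^ n * qPoch q q n *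
      (q * a q n (i + 1) - (1 - r ^ (i + 1)) * a q n i) = - qPoch q q N * a q N (i + 1) := by
  induction N with
  | zero => simp [a_zero_left]
  | succ N ih =>
    rw [Finset.sum_range_succ, mul_add, ih, qPoch_succ, a_succ]
    have h := a_second q N i
    have h3 : q ^ (i + 1) * r ^ (i + 1) = 1 := by rw [← mul_pow, hq, one_pow]
    linear_combination q ^ N * qPoch q q N * q * h + q ^ N * qPoch q q N * a q N i * h3

lemma tele_zero (q : R) (N : ℕ) :
    q * ∑ n ∈ range N, q ^ n * qPoch q q n * a q n 0 = 1 - qPoch q q N := by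
  induction N with
  | zero => simp [qPoch]
  | succ N ih =>
    rw [Finset.sum_range_succ, mul_add, ih, qPoch_succ, a_zero_right]
    ring

/-- The coefficient of `p ^ (i + 1)` in the `N`-th left-hand partial sum agrees with the
right-hand coefficient up to a multiple of `(q; q)_N`. -/
lemma main_dvd (q r : R) (hq : q * r = 1) (N : ℕ) : ∀ i : ℕ,
    qPoch q q N ∣ (∑ n ∈ range N, q ^ n * qPoch q q n * a q n i) - r ^ (i + 1) * qPoch r r i := by
  intro i
  induction i with
  | zero =>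
    refine ⟨-r, ?_⟩
    have h := tele_zero q N
    have h0 : qPoch r r 0 = 1 := by simp [qPoch]
    rw [h0]
    linear_combination r * h -
      (∑ n ∈ range N, q ^ n * qPoch q q n * a q n 0) * hq
  | succ i ih =>
    obtain ⟨e, he⟩ := ih
    have h := tele q r hq i N
    have h3 : q ^ (i + 1) * r ^ (i + 1) = 1 := by rw [← mul_pow, hq, one_pow]
    have hsplit : ∑ n ∈ range N, q ^ n * qPoch q q n *
        (q * a q n (i + 1) - (1 - r ^ (i + 1)) * a q n i) =
        q * (∑ n ∈ range N, q ^ n * qPoch q q n * a q n (i + 1)) -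
          (1 - r ^ (i + 1)) * ∑ n ∈ range N, q ^ n * qPoch q q n * a q n i := by
      rw [Finset.mul_sum, Finset.mul_sum, ← Finset.sum_sub_distrib]
      apply Finset.sum_congr rfl
      intro n _
      ring
    rw [hsplit] at h
    set S1 := ∑ n ∈ range N, q ^ n * qPoch q q n * a q n (i + 1) with hS1
    set S0 := ∑ n ∈ range N, q ^ n * qPoch q q n * a q n i with hS0
    refine ⟨r * (1 - r ^ (i + 1)) * e - r ^ (i + 2) * a q N (i + 1), ?_⟩
    have h4 : q * S1 - (1 - r ^ (i + 1)) * S0 = - r ^ (i + 1) * (qPoch q q N * a q N (i + 1)) := by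
      linear_combination r ^ (i + 1) * h - (q * S1 - (1 - r ^ (i + 1)) * S0) * h3
    have h5 : S1 = r * ((1 - r ^ (i + 1)) * S0 - r ^ (i + 1) * (qPoch q q N * a q N (i + 1))) := by
      linear_combination r * h4 - S1 * hq
    rw [h5, qPoch_succ]
    have h6 : r * r ^ i = r ^ (i + 1) := by ring
    rw [h6]
    linear_combination r * (1 - r ^ (i + 1)) * he

end identity

section transfer

/-- The natural ring homomorphism `ℂ[[v]][p] → ℂ[p][[v]]`. -/
noncomputable def Phi : Polynomial (PowerSeries ℂ) →+* PS :=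
  Polynomial.eval₂RingHom (PowerSeries.map Polynomial.C) (PowerSeries.C Polynomial.X)

lemma coeff_Phi (f : Polynomial (PowerSeries ℂ)) (m j : ℕ) :
    (PowerSeries.coeff m (Phi f)).coeff j = PowerSeries.coeff m (f.coeff j) := by
  induction f using Polynomial.induction_on' with
  | add f g hf hg => rw [map_add, map_add, Polynomial.coeff_add, hf, hg, Polynomial.coeff_add,
      map_add]
  | monomial i b =>
    unfold Phi
    rw [Polynomial.coe_eval₂RingHom, Polynomial.eval₂_monomial, ← map_pow,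
      PowerSeries.coeff_mul_C, PowerSeries.coeff_map, Polynomial.coeff_C_mul,
      Polynomial.coeff_X_pow, Polynomial.coeff_monomial]
    by_cases h : j = i
    · subst h; simp
    · rw [if_neg h, if_neg (Ne.symm h)]; simp

lemma map_qPoch {R S : Type*} [CommRing R] [CommRing S] (f : R →+* S) (b t : R) (n : ℕ) :
    f (qPoch b t n) = qPoch (f b) (f t) n := by
  unfold qPoch
  rw [map_prod]
  simp

end transfer

section order

lemma le_order_qPoch (b t : PowerSeries ℂ) (J : Finset ℕ) (N : ℕ) (hJ : J ⊆ range N)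
    (h : ∀ j ∈ J, PowerSeries.constantCoeff (1 - b * t ^ j) = 0) :
    (J.card : ℕ∞) ≤ (qPoch b t N).order := by
  unfold qPoch
  refine le_trans ?_ (PowerSeries.le_order_prod _ _)
  rw [← Finset.sum_sdiff hJ]
  refine le_trans ?_ (le_add_of_nonneg_left (zero_le))
  calc (J.card : ℕ∞) = ∑ _j ∈ J, (1 : ℕ∞) := by simp
    _ ≤ _ := by
      apply Finset.sum_le_sum
      intro j hj
      exact PowerSeries.one_le_order_iff_constCoeff_eq_zero.mpr (h j hj)

/-- If the constant term of `t` is a `k`-th root of unity, `(t; t)_N` vanishes to order at least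
`⌊N/k⌋`. -/
lemma order_self (t : PowerSeries ℂ) (k : ℕ) (hk : 1 ≤ k)
    (ht : (PowerSeries.constantCoeff t) ^ k = 1) (d N : ℕ) (hN : k * d ≤ N) :
    (d : ℕ∞) ≤ (qPoch t t N).order := by
  have hinj : Function.Injective (fun i : ℕ => k - 1 + k * i) := by
    intro a b hab
    have : k * a = k * b := by simpa using hab
    exact Nat.eq_of_mul_eq_mul_left (by omega) this
  have h := le_order_qPoch t t ((range d).image (fun i => k - 1 + k * i)) N
    (by
      intro x hx
      rw [Finset.mem_image] at hx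
      obtain ⟨i, hi, rfl⟩ := hx
      rw [Finset.mem_range] at hi ⊢
      have : k * i + k ≤ k * d := by
        calc k * i + k = k * (i + 1) := by ring
          _ ≤ k * d := Nat.mul_le_mul_left _ hi
      omega)
    (by
      intro x hx
      rw [Finset.mem_image] at hx
      obtain ⟨i, _, rfl⟩ := hx
      simp only [map_sub, map_mul, map_pow, map_one]
      rw [pow_add, pow_mul, ht, one_pow, mul_one, ← pow_succ', Nat.sub_add_cancel hk, ht,
        sub_self])
  rwa [Finset.card_image_of_injective _ hinj, Finset.card_range] at h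

lemma coeff_eq_zero_of_dvd {f g : PowerSeries ℂ} {m d : ℕ} (hd : (d : ℕ∞) ≤ f.order)
    (hm : m < d) (h : f ∣ g) : PowerSeries.coeff m g = 0 := by
  obtain ⟨c, rfl⟩ := h
  apply PowerSeries.coeff_of_lt_order
  refine lt_of_lt_of_le ?_ (PowerSeries.le_order_mul _ _)
  refine lt_of_lt_of_le ?_ (le_trans hd (le_add_of_nonneg_right zero_le))
  exact_mod_cast hm

end order

/-- `q₀ + v` in `ℂ[[v]]`. -/
noncomputable def qv (q₀ : ℂ) : PowerSeries ℂ := PowerSeries.C q₀ + PowerSeries.X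

lemma const_qv (q₀ : ℂ) : PowerSeries.constantCoeff (qv q₀) = q₀ := by
  simp [qv]

lemma Phi_X : Phi Polynomial.X = pSer := by
  simp [Phi, pSer]

lemma Phi_C (f : PowerSeries ℂ) : Phi (Polynomial.C f) = PowerSeries.map Polynomial.C f := by
  simp [Phi]

lemma Phi_q (q₀ : ℂ) : Phi (Polynomial.C (qv q₀)) = qSer q₀ := by
  rw [Phi_C]
  simp [qv, qSer]

lemma Phi_qinv (q₀ : ℂ) (h : q₀ ≠ 0) : Phi (Polynomial.C (qv q₀)⁻¹) = qInv q₀ := by
  have h1 : qSer q₀ * Phi (Polynomial.C (qv q₀)⁻¹) = 1 := by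
    rw [← Phi_q, ← map_mul, ← Polynomial.C_mul, PowerSeries.mul_inv_cancel _
      (by rw [const_qv]; exact h)]
    simp
  have h2 : Phi (Polynomial.C (qv q₀)⁻¹) * qSer q₀ = 1 := by rw [mul_comm]; exact h1
  unfold qInv
  let u : PSˣ := ⟨qSer q₀, Phi (Polynomial.C (qv q₀)⁻¹), h1, h2⟩
  have : Ring.inverse (u : PS) = ((u⁻¹ : PSˣ) : PS) := Ring.inverse_unit u
  exact this.symm

/-- the left summand over `ℂ[[v]][p]` -/
noncomputable def L (q₀ : ℂ) (n : ℕ) : Polynomial (PowerSeries ℂ) :=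
  Polynomial.X * Polynomial.C (qv q₀) ^ n * qPoch Polynomial.X (Polynomial.C (qv q₀)) n *
    Polynomial.C (qPoch (qv q₀) (qv q₀) n)

/-- the right summand over `ℂ[[v]][p]` -/
noncomputable def Rt (q₀ : ℂ) (n : ℕ) : Polynomial (PowerSeries ℂ) :=
  (Polynomial.X * Polynomial.C (qv q₀)⁻¹) ^ (n + 1) *
    Polynomial.C (qPoch (qv q₀)⁻¹ (qv q₀)⁻¹ n)

lemma Phi_L (q₀ : ℂ) (n : ℕ) : Phi (L q₀ n) = lhs q₀ n := by
  unfold L lhs
  rw [map_mul, map_mul, map_mul, map_pow, map_qPoch, Phi_X, Phi_q]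
  have : (Polynomial.C (qPoch (qv q₀) (qv q₀) n) : Polynomial (PowerSeries ℂ)) =
      qPoch (Polynomial.C (qv q₀)) (Polynomial.C (qv q₀)) n := map_qPoch Polynomial.C _ _ _
  rw [this, map_qPoch, Phi_q]

lemma Phi_Rt (q₀ : ℂ) (h : q₀ ≠ 0) (n : ℕ) : Phi (Rt q₀ n) = rhs q₀ n := by
  unfold Rt rhs
  rw [map_mul, map_pow, map_mul, Phi_X, Phi_qinv q₀ h]
  have : (Polynomial.C (qPoch (qv q₀)⁻¹ (qv q₀)⁻¹ n) : Polynomial (PowerSeries ℂ)) =
      qPoch (Polynomial.C (qv q₀)⁻¹) (Polynomial.C (qv q₀)⁻¹) n := map_qPoch Polynomial.C _ _ _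
  rw [this, map_qPoch, Phi_qinv q₀ h]

lemma coeff_L_zero (q₀ : ℂ) (n : ℕ) : (L q₀ n).coeff 0 = 0 := by
  unfold L
  rw [Polynomial.mul_coeff_zero, Polynomial.mul_coeff_zero, Polynomial.mul_coeff_zero]
  simp

lemma coeff_L_succ (q₀ : ℂ) (n i : ℕ) : (L q₀ n).coeff (i + 1) =
    qv q₀ ^ n * qPoch (qv q₀) (qv q₀) n * a (qv q₀) n i := by
  unfold L a
  have : (Polynomial.X * Polynomial.C (qv q₀) ^ n * qPoch Polynomial.X (Polynomial.C (qv q₀)) n *
    Polynomial.C (qPoch (qv q₀) (qv q₀) n) : Polynomial (PowerSeries ℂ)) =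
      Polynomial.C (qv q₀ ^ n * qPoch (qv q₀) (qv q₀) n) *
        (Polynomial.X * qPoch Polynomial.X (Polynomial.C (qv q₀)) n) := by
    rw [Polynomial.C_mul, Polynomial.C_pow]; ring
  rw [this, Polynomial.coeff_C_mul, Polynomial.coeff_X_mul]

lemma coeff_Rt (q₀ : ℂ) (n j : ℕ) : (Rt q₀ n).coeff j =
    if j = n + 1 then (qv q₀)⁻¹ ^ (n + 1) * qPoch (qv q₀)⁻¹ (qv q₀)⁻¹ n else 0 := by
  unfold Rt
  have : ((Polynomial.X * Polynomial.C (qv q₀)⁻¹) ^ (n + 1) *
    Polynomial.C (qPoch (qv q₀)⁻¹ (qv q₀)⁻¹ n) : Polynomial (PowerSeries ℂ)) =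
      Polynomial.C ((qv q₀)⁻¹ ^ (n + 1) * qPoch (qv q₀)⁻¹ (qv q₀)⁻¹ n) *
        Polynomial.X ^ (n + 1) := by
    rw [Polynomial.C_mul, Polynomial.C_pow, mul_pow]; ring
  rw [this, Polynomial.coeff_C_mul, Polynomial.coeff_X_pow]
  split_ifs <;> simp

theorem result : ∀ q₀ : ℂ, (∃ k : ℕ, 1 ≤ k ∧ q₀ ^ k = 1) →
    Converges (lhs q₀) ∧ Converges (rhs q₀) ∧ value (lhs q₀) = value (rhs q₀) := by
  rintro q₀ ⟨k, hk, hq⟩
  have hq0 : q₀ ≠ 0 := by
    rintro rfl
    rw [zero_pow (by omega)] at hq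
    exact zero_ne_one hq
  have hqr : qv q₀ * (qv q₀)⁻¹ = 1 :=
    PowerSeries.mul_inv_cancel _ (by rw [const_qv]; exact hq0)
  have hordL : ∀ d N : ℕ, k * d ≤ N → (d : ℕ∞) ≤ (qPoch (qv q₀) (qv q₀) N).order :=
    fun d N hN => order_self _ k hk (by rw [const_qv]; exact hq) d N hN
  have hordR : ∀ d N : ℕ, k * d ≤ N → (d : ℕ∞) ≤ (qPoch (qv q₀)⁻¹ (qv q₀)⁻¹ N).order :=
    fun d N hN => order_self _ k hk
      (by rw [PowerSeries.constantCoeff_inv, const_qv, inv_pow, hq, inv_one]) d N hN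
  -- each coefficient eventually vanishes
  have hL0 : ∀ m n : ℕ, k * (m + 1) ≤ n → PowerSeries.coeff m (lhs q₀ n) = 0 := by
    intro m n hn
    ext j
    rw [← Phi_L, coeff_Phi, Polynomial.coeff_zero]
    rcases j with _ | i
    · rw [coeff_L_zero, map_zero]
    · rw [coeff_L_succ]
      exact coeff_eq_zero_of_dvd (hordL (m + 1) n hn) (Nat.lt_succ_self m)
        (Dvd.dvd.mul_right (dvd_mul_left _ _) _)
  have hR0 : ∀ m n : ℕ, k * (m + 1) ≤ n → PowerSeries.coeff m (rhs q₀ n) = 0 := by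
    intro m n hn
    ext j
    rw [← Phi_Rt q₀ hq0, coeff_Phi, Polynomial.coeff_zero, coeff_Rt]
    split_ifs
    · exact coeff_eq_zero_of_dvd (hordR (m + 1) n hn) (Nat.lt_succ_self m)
        (dvd_mul_left _ _)
    · exact map_zero _
  have hfinL : ∀ m : ℕ, {n : ℕ | PowerSeries.coeff m (lhs q₀ n) ≠ 0} ⊆
      ((range (k * (m + 1)) : Finset ℕ) : Set ℕ) := by
    intro m n hn
    by_contra h
    rw [Finset.coe_range, Set.mem_Iio, not_lt] at h
    exact hn (hL0 m n h)
  have hfinR : ∀ m : ℕ, {n : ℕ | PowerSeries.coeff m (rhs q₀ n) ≠ 0} ⊆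
      ((range (k * (m + 1)) : Finset ℕ) : Set ℕ) := by
    intro m n hn
    by_contra h
    rw [Finset.coe_range, Set.mem_Iio, not_lt] at h
    exact hn (hR0 m n h)
  refine ⟨fun m => (Finset.finite_toSet _).subset (hfinL m),
    fun m => (Finset.finite_toSet _).subset (hfinR m), ?_⟩
  apply PowerSeries.ext
  intro m
  unfold value
  rw [PowerSeries.coeff_mk, PowerSeries.coeff_mk]
  rw [finsum_eq_sum_of_support_subset _ (hfinL m), finsum_eq_sum_of_support_subset _ (hfinR m)]
  set N := k * (m + 1) with hN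
  ext j
  rw [Polynomial.finsetSum_coeff, Polynomial.finsetSum_coeff]
  have e1 : ∀ n, (PowerSeries.coeff m (lhs q₀ n)).coeff j =
      PowerSeries.coeff m ((L q₀ n).coeff j) := fun n => by rw [← Phi_L, coeff_Phi]
  have e2 : ∀ n, (PowerSeries.coeff m (rhs q₀ n)).coeff j =
      PowerSeries.coeff m ((Rt q₀ n).coeff j) := fun n => by rw [← Phi_Rt q₀ hq0, coeff_Phi]
  simp only [e1, e2]
  rcases j with _ | i
  · simp [coeff_L_zero, coeff_Rt]
  · have e3 : ∀ n, PowerSeries.coeff m ((Rt q₀ n).coeff (i + 1)) =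
        if n = i then PowerSeries.coeff m ((qv q₀)⁻¹ ^ (i + 1) * qPoch (qv q₀)⁻¹ (qv q₀)⁻¹ i)
          else 0 := by
      intro n
      rw [coeff_Rt]
      by_cases h : n = i
      · subst h; simp
      · rw [if_neg (by omega), if_neg h, map_zero]
    simp only [e3, coeff_L_succ]
    rw [Finset.sum_ite_eq' (range N) i]
    have hmain := main_dvd (qv q₀) (qv q₀)⁻¹ hqr N i
    have h0 := coeff_eq_zero_of_dvd (hordL (m + 1) N le_rfl) (Nat.lt_succ_self m) hmain
    rw [map_sub, map_sum, sub_eq_zero] at h0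
    rw [h0]
    split_ifs with hi
    · rfl
    · rw [Finset.mem_range, not_lt] at hi
      exact coeff_eq_zero_of_dvd (hordR (m + 1) i hi) (Nat.lt_succ_self m)
        (dvd_mul_left _ _)

end Pool.Agent.Results.MP_12a8d1_co.Q2Expansion
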